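import Pool.Agent.H9.FatPoint.Main

/-!
# A multigraded Hilbert scheme that is a fat point
-/

namespace Pool.Agent.Results.MP_94ed3e_ag.FatPointHilbertScheme

open Pool.Agent.H9.FatPoint

/-- Over every field `k`, the multigraded Hilbert scheme of `k[x, y, z]` for the grading by `ℤ²`
with degrees `(1, 0)`, `(0, 1)`, `(1, 1)` and the Hilbert function `hilb` (of total dimension
`12`) is isomorphic to the spectrum of the dual numbers `k[ε]/(ε²)`, a local Artinian `k`-algebra
that is not a field. -/
theorem result (k : Type) [Field k] :
    IsRepresentedBy deg3 hilb k (DualNumber k) ∧ IsLocalRing (DualNumber k) ∧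
      IsArtinianRing (DualNumber k) ∧ ¬ IsField (DualNumber k) :=
  ⟨isRepresentedBy k, inferInstance, artinian k, not_field k⟩

end Pool.Agent.Results.MP_94ed3e_ag.FatPointHilbertScheme
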